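import Pool.Agent.CYE.StmtsB

/-! # Squad CYE, module EVL -/

set_option autoImplicit false

open Polynomial IsLocalRing

namespace Pool.Agent.CYE

namespace H56E

variable {ι : Type} [Fintype ι] [DecidableEq ι] {q : ι → ℕ} [∀ i, Fact (q i).Prime] {L : Type}
  [Field L] {α : ι → L}

theorem pow_mod' (hα : ∀ i, IsPrimitiveRoot (α i) (q i)) (i : ι) (n : ℕ) :
    α i ^ (n % q i) = α i ^ n := by
  conv_rhs => rw [← Nat.mod_add_div n (q i), pow_add, pow_mul, (hα i).pow_eq_one, one_pow, mul_one]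

theorem ev_add (hα : ∀ i, IsPrimitiveRoot (α i) (q i)) (b b' : Pt q) :
    ev α (b + b') = ev α b * ev α b' := by
  unfold ev
  rw [← Finset.prod_mul_distrib]
  refine Finset.prod_congr rfl fun i _ => ?_
  rw [Pi.add_apply, ZMod.val_add, pow_mod' hα, pow_add]

theorem ev_zero (b : Pt q) (h : b = 0) : ev α b = 1 := by
  unfold ev
  rw [h]
  refine Finset.prod_eq_one fun i _ => ?_
  rw [Pi.zero_apply, ZMod.val_zero, pow_zero]

theorem ev_ne (hα : ∀ i, IsPrimitiveRoot (α i) (q i)) (b : Pt q) : ev α b ≠ 0 := by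
  unfold ev
  refine Finset.prod_ne_zero_iff.mpr fun i _ => pow_ne_zero _ ?_
  exact (hα i).ne_zero (Fact.out : (q i).Prime).ne_zero

/-- The value of `ev` to the power `k`. -/
theorem ev_nsmul (hα : ∀ i, IsPrimitiveRoot (α i) (q i)) (b : Pt q) (k : ℕ) :
    ev α b ^ k = ev α (fun i => (k : ZMod (q i)) * b i) := by
  unfold ev
  rw [← Finset.prod_pow]
  refine Finset.prod_congr rfl fun i _ => ?_
  rw [ZMod.val_mul, pow_mod' hα, ZMod.val_natCast, pow_mul, pow_mod' hα, ← pow_mul, ← pow_mul,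
    mul_comm]

theorem ev_fr (hα : ∀ i, IsPrimitiveRoot (α i) (q i)) (i : ι) (b : Pt q) :
    ev α (fr i b) = ev α b ^ q i * α i ^ (b i).val := by
  rw [ev_nsmul hα]
  unfold ev
  rw [← Finset.mul_prod_erase _ _ (Finset.mem_univ i), ← Finset.mul_prod_erase _
    (fun j => α j ^ ((q i : ZMod (q j)) * b j).val) (Finset.mem_univ i)]
  have h1 : ((q i : ZMod (q i)) * b i).val = 0 := by
    rw [ZMod.natCast_self, zero_mul, ZMod.val_zero]
  rw [h1, pow_zero, one_mul, mul_comm]
  congr 1
  · refine Finset.prod_congr rfl fun j hj => ?_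
    rw [fr, if_neg (Finset.ne_of_mem_erase hj)]
  · rw [fr, if_pos rfl]

theorem ev_sh (hα : ∀ i, IsPrimitiveRoot (α i) (q i)) (i : ι) (s b : Pt q) :
    ev α (sh i s b) = ev α b * α i ^ (s i).val := by
  unfold ev
  rw [← Finset.mul_prod_erase _ _ (Finset.mem_univ i), ← Finset.mul_prod_erase _
    (fun j => α j ^ (b j).val) (Finset.mem_univ i)]
  have h1 : α i ^ (sh i s b i).val = α i ^ (b i).val * α i ^ (s i).val := by
    rw [sh, if_pos rfl, ZMod.val_add, pow_mod' hα, pow_add]
  have h2 : ∏ j ∈ Finset.univ.erase i, α j ^ (sh i s b j).val =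
      ∏ j ∈ Finset.univ.erase i, α j ^ (b j).val := by
    refine Finset.prod_congr rfl fun j hj => ?_
    rw [sh, if_neg (Finset.ne_of_mem_erase hj)]
  rw [h1, h2]
  ring

theorem ev_eq_one (hα : ∀ i, IsPrimitiveRoot (α i) (q i)) (hq : Function.Injective q) (b : Pt q)
    (h : ev α b = 1) (i : ι) : b i = 0 := by
  -- raise to the power `∏ j ≠ i, q j`
  set M : ℕ := ∏ j ∈ Finset.univ.erase i, q j with hM
  have h1 : ev α (fun j => (M : ZMod (q j)) * b j) = 1 := by
    rw [← ev_nsmul hα, h, one_pow]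
  unfold ev at h1
  rw [← Finset.mul_prod_erase _ _ (Finset.mem_univ i)] at h1
  have h2 : ∏ j ∈ Finset.univ.erase i, α j ^ ((M : ZMod (q j)) * b j).val = 1 := by
    refine Finset.prod_eq_one fun j hj => ?_
    have h3 : (M : ZMod (q j)) = 0 := by
      rw [ZMod.natCast_eq_zero_iff]
      exact Finset.dvd_prod_of_mem _ hj
    rw [h3, zero_mul, ZMod.val_zero, pow_zero]
  rw [h2, mul_one] at h1
  have h4 : q i ∣ ((M : ZMod (q i)) * b i).val := (hα i).dvd_of_pow_eq_one _ h1
  have h5 : ((M : ZMod (q i)) * b i) = 0 := by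
    rw [← ZMod.natCast_zmod_val ((M : ZMod (q i)) * b i)]
    exact (ZMod.natCast_eq_zero_iff _ _).mpr h4
  rcases mul_eq_zero.mp h5 with h6 | h6
  · exfalso
    rw [ZMod.natCast_eq_zero_iff] at h6
    have hp : (q i).Prime := Fact.out
    rw [hM, hp.prime.dvd_finsetProd_iff] at h6
    obtain ⟨j, hj, hd⟩ := h6
    have h7 := (Nat.prime_dvd_prime_iff_eq hp (Fact.out : (q j).Prime)).mp hd
    exact Finset.ne_of_mem_erase hj (hq h7).symm
  · exact h6

end H56E

open H56E in
theorem evl : EvlStmt := by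
  intro ι _ _ q _ L _ α hα hq
  have hadd := fun b b' : Pt q => ev_add hα b b'
  have hneg : ∀ b : Pt q, ev α b * ev α (-b) = 1 := fun b => by
    rw [← hadd, ev_zero _ (add_neg_cancel b)]
  refine ⟨hadd, fun b => ⟨ev_ne hα b, hneg b, ?_⟩, fun i b => ev_fr hα i b,
    fun i s b => ev_sh hα i s b, fun b b' h => ?_, fun b hb => ?_⟩
  · exact (inv_eq_of_mul_eq_one_right (hneg b)).symm
  · have h1 : ev α (b + -b') = 1 := by
      rw [hadd, h, hneg]
    funext i
    have h2 := ev_eq_one hα hq _ h1 i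
    rw [Pi.add_apply, Pi.neg_apply] at h2
    exact eq_of_sub_eq_zero (by rw [sub_eq_add_neg]; exact h2)
  · refine ⟨?_, fun l hl => ?_⟩
    · rw [ev_nsmul hα]
      refine ev_zero _ ?_
      funext i
      have h3 : ((∏ i, q i : ℕ) : ZMod (q i)) = 0 := by
        rw [ZMod.natCast_eq_zero_iff]
        exact Finset.dvd_prod_of_mem _ (Finset.mem_univ i)
      rw [h3, zero_mul, Pi.zero_apply]
    · rw [ev_nsmul hα] at hl
      have h4 : ∀ i, q i ∣ l := fun i => by
        have h5 := ev_eq_one hα hq _ hl i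
        rcases mul_eq_zero.mp h5 with h6 | h6
        · exact (ZMod.natCast_eq_zero_iff _ _).mp h6
        · exact absurd h6 (hb i)
      have h7 : ∏ i, q i = ∏ x ∈ Finset.univ.image q, x :=
        (Finset.prod_image (f := fun x : ℕ => x) (s := Finset.univ) (g := q)
          (fun i _ j _ h => hq h)).symm
      rw [h7]
      refine Finset.prod_primes_dvd l ?_ ?_
      · intro x hx
        obtain ⟨i, _, rfl⟩ := Finset.mem_image.mp hx
        exact (Fact.out : (q i).Prime).prime
      · intro x hx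
        obtain ⟨i, _, rfl⟩ := Finset.mem_image.mp hx
        exact h4 i

end Pool.Agent.CYE
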